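import Mathlib

/-!
The coefficient of `q^k` in `RB_n(1221)` is the same for all `n ≥ k + 2`.
-/

namespace Pool.Agent.Results.MP_3ac9ea_co.Stabilization

open Finset Polynomial

/-- `w = w_1 w_2 ... w_n` (positions indexed by `Fin n`) is a restricted growth function:
its entries are positive, the first one is `1`, and every later entry is at most one more than
some (equivalently, the largest) earlier entry. -/
def IsRGF {n : ℕ} (w : Fin n → ℕ) : Prop :=
  (∀ i, 1 ≤ w i) ∧ (∀ i : Fin n, (i : ℕ) = 0 → w i = 1) ∧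
    ∀ i : Fin n, 0 < (i : ℕ) → ∃ j, j < i ∧ w i ≤ 1 + w j

/-- `w` avoids the pattern `1221`. -/
def Avoids1221 {n : ℕ} (w : Fin n → ℕ) : Prop :=
  ¬ ∃ a b c d : Fin n, a < b ∧ b < c ∧ c < d ∧ w a = w d ∧ w d < w b ∧ w b = w c

/-- `rb (w_j)`: the number of distinct values larger than `w_j` that occur to the right of
position `j`. -/
def rbAt {n : ℕ} (w : Fin n → ℕ) (j : Fin n) : ℕ :=
  ((univ.filter (fun i => j < i ∧ w j < w i)).image w).card

/-- `rb (w)`, the sum of the `rb (w_j)`. -/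
def rb {n : ℕ} (w : Fin n → ℕ) : ℕ := ∑ j, rbAt w j

/-- The set `R_n(1221)` of restricted growth functions of length `n` that avoid `1221`. -/
def R1221 (n : ℕ) : Set (Fin n → ℕ) := {w | IsRGF w ∧ Avoids1221 w}

lemma IsRGF.le_succ {n : ℕ} {w : Fin n → ℕ} (h : IsRGF w) (i : Fin n) : w i ≤ (i : ℕ) + 1 := by
  obtain ⟨i, hi⟩ := i
  induction i using Nat.strong_induction_on with
  | _ i ih =>
    rcases Nat.eq_zero_or_pos i with h0 | h0
    · have := h.2.1 ⟨i, hi⟩ h0
      omega
    · obtain ⟨⟨j, hj⟩, hji, hle⟩ := h.2.2 ⟨i, hi⟩ h0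
      have hji' : j < i := hji
      have := ih j hji' hj
      simp only at this ⊢
      omega

lemma R1221_finite (n : ℕ) : (R1221 n).Finite := by
  apply Set.Finite.subset (Set.Finite.pi (fun _ : Fin n => Set.finite_Iic n))
  intro w hw
  simp only [Set.mem_pi, Set.mem_univ, Set.mem_Iic, true_implies]
  intro i
  have := hw.1.le_succ i
  omega

/-- The polynomial `RB_n(1221; q) = ∑_{w ∈ R_n(1221)} q ^ rb (w)`. -/
noncomputable def RB (n : ℕ) : ℕ[X] := ∑ w ∈ (R1221_finite n).toFinset, X ^ rb w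

/-- In a restricted growth function every value smaller than `w i` occurs before `i`. -/
lemma IsRGF.exists_lt {n : ℕ} {w : Fin n → ℕ} (h : IsRGF w) (i : Fin n) (x : ℕ) (hx : 1 ≤ x)
    (hxi : x < w i) : ∃ j, j < i ∧ w j = x := by
  obtain ⟨i, hi⟩ := i
  induction i using Nat.strong_induction_on with
  | _ i ih =>
    rcases Nat.eq_zero_or_pos i with h0 | h0
    · have := h.2.1 ⟨i, hi⟩ h0
      omega
    · obtain ⟨⟨j, hj⟩, hji, hle⟩ := h.2.2 ⟨i, hi⟩ h0
      have hji' : j < i := hji
      rcases Nat.lt_or_ge x (w ⟨j, hj⟩) with h1 | h1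
      · obtain ⟨l, hl, hl'⟩ := ih j hji' hj h1
        exact ⟨l, lt_trans hl hji, hl'⟩
      · exact ⟨⟨j, hj⟩, hji, by omega⟩

/-- Key lemma: in an RGF that avoids `1221` there are no positions `z < q < r` with
`w r < w q ≤ w z`. -/
lemma key {n : ℕ} {w : Fin n → ℕ} (h : IsRGF w) (ha : Avoids1221 w) {z q r : Fin n}
    (hzq : z < q) (hqr : q < r) (h1 : w r < w q) (h2 : w q ≤ w z) : False := by
  rcases Nat.eq_or_lt_of_le h2 with h3 | h3
  · obtain ⟨a, haz, hax⟩ := h.exists_lt z (w r) (h.1 r) (by omega)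
    exact ha ⟨a, z, q, r, haz, hzq, hqr, hax, by omega, h3.symm⟩
  · obtain ⟨b, hbz, hby⟩ := h.exists_lt z (w q) (h.1 q) h3
    obtain ⟨a, hab, hax⟩ := h.exists_lt b (w r) (h.1 r) (by omega)
    exact ha ⟨a, b, q, r, hab, lt_trans hbz hzq, hqr, hax, by omega, hby⟩

lemma rbAt_eq_zero {n : ℕ} {w : Fin n → ℕ} {j : Fin n} (h : rbAt w j = 0) {i : Fin n}
    (hji : j < i) : w i ≤ w j := by
  by_contra hlt
  push Not at hlt
  unfold rbAt at h
  rw [Finset.card_eq_zero, Finset.image_eq_empty] at h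
  have : i ∈ (univ.filter (fun i => j < i ∧ w j < w i)) := by simp [hji, hlt]
  rw [h] at this
  simp at this

/-- The extension of a word by a further copy of its last letter. -/
def ext {m : ℕ} (w : Fin (m + 1) → ℕ) : Fin (m + 2) → ℕ := Fin.snoc w (w (Fin.last m))

lemma ext_castSucc {m : ℕ} (w : Fin (m + 1) → ℕ) (i : Fin (m + 1)) :
    ext w i.castSucc = w i := by simp [ext]

lemma ext_last {m : ℕ} (w : Fin (m + 1) → ℕ) : ext w (Fin.last (m + 1)) = w (Fin.last m) := by
  simp [ext]

lemma ext_injective {m : ℕ} : Function.Injective (ext (m := m)) := by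
  intro w w' h
  funext i
  rw [← ext_castSucc w, ← ext_castSucc w', h]

lemma rb_ext {m : ℕ} (w : Fin (m + 1) → ℕ) : rb (ext w) = rb w := by
  unfold rb
  rw [Fin.sum_univ_castSucc]
  have hlast : rbAt (ext w) (Fin.last (m + 1)) = 0 := by
    unfold rbAt
    rw [Finset.card_eq_zero, Finset.image_eq_empty, Finset.filter_eq_empty_iff]
    intro i _ hi
    exact absurd hi.1 (not_lt.mpr (Fin.le_last i))
  rw [hlast, add_zero]
  apply Finset.sum_congr rfl
  intro j _
  unfold rbAt
  congr 1
  ext x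
  simp only [Finset.mem_image, Finset.mem_filter, Finset.mem_univ, true_and]
  constructor
  · rintro ⟨i, ⟨hji, hlt⟩, rfl⟩
    induction i using Fin.lastCases with
    | last =>
      rw [ext_castSucc, ext_last] at hlt
      refine ⟨Fin.last m, ⟨?_, hlt⟩, (ext_last w).symm⟩
      rcases (Fin.le_last j).lt_or_eq with h | h
      · exact h
      · subst h
        exact absurd hlt (lt_irrefl _)
    | cast i =>
      rw [ext_castSucc, ext_castSucc] at hlt
      exact ⟨i, ⟨by simpa using hji, hlt⟩, (ext_castSucc w i).symm⟩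
  · rintro ⟨i, ⟨hji, hlt⟩, rfl⟩
    exact ⟨i.castSucc, ⟨by simpa using hji, by rwa [ext_castSucc, ext_castSucc]⟩,
      ext_castSucc w i⟩

lemma ext_mem {m : ℕ} {w : Fin (m + 1) → ℕ} (hw : w ∈ R1221 (m + 1)) :
    ext w ∈ R1221 (m + 2) := by
  obtain ⟨⟨h1, h2, h3⟩, ha⟩ := hw
  refine ⟨⟨?_, ?_, ?_⟩, ?_⟩
  · intro i
    induction i using Fin.lastCases with
    | last => rw [ext_last]; exact h1 _
    | cast i => rw [ext_castSucc]; exact h1 _
  · intro i hi
    induction i using Fin.lastCases with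
    | last => simp at hi
    | cast i => rw [ext_castSucc]; exact h2 _ (by simpa using hi)
  · intro i hi
    induction i using Fin.lastCases with
    | last =>
      refine ⟨(Fin.last m).castSucc, Fin.castSucc_lt_last _, ?_⟩
      rw [ext_last, ext_castSucc]
      omega
    | cast i =>
      obtain ⟨j, hj, hle⟩ := h3 i (by simpa using hi)
      exact ⟨j.castSucc, by simpa using hj, by rwa [ext_castSucc, ext_castSucc]⟩
  · rintro ⟨a, b, c, d, hab, hbc, hcd, had, hdb, hbc'⟩
    obtain ⟨c, rfl⟩ : ∃ c' : Fin (m + 1), c = c'.castSucc :=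
      ⟨c.castPred (ne_of_lt (lt_of_lt_of_le hcd (Fin.le_last d))), by simp⟩
    obtain ⟨b, rfl⟩ : ∃ b' : Fin (m + 1), b = b'.castSucc :=
      ⟨b.castPred (ne_of_lt (lt_of_lt_of_le hbc (Fin.le_last _))), by simp⟩
    obtain ⟨a, rfl⟩ : ∃ a' : Fin (m + 1), a = a'.castSucc :=
      ⟨a.castPred (ne_of_lt (lt_of_lt_of_le hab (Fin.le_last _))), by simp⟩
    rw [Fin.castSucc_lt_castSucc_iff] at hab hbc
    simp only [ext_castSucc] at had hdb hbc'
    induction d using Fin.lastCases with
    | last =>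
      rw [ext_last] at had hdb
      rcases (Fin.le_last c).lt_or_eq with h | h
      · exact ha ⟨a, b, c, Fin.last m, hab, hbc, h, had, hdb, hbc'⟩
      · subst h
        omega
    | cast d =>
      rw [Fin.castSucc_lt_castSucc_iff] at hcd
      rw [ext_castSucc] at had hdb
      exact ha ⟨a, b, c, d, hab, hbc, hcd, had, hdb, hbc'⟩

/-- The number of positions with `rb (w_j) = 0` is at least `n - rb (w)`. -/
lemma card_zero {n : ℕ} (w : Fin n → ℕ) :
    n ≤ rb w + (univ.filter (fun j => rbAt w j = 0)).card := by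
  have h1 : (univ.filter (fun j => rbAt w j = 0)).card +
      (univ.filter (fun j => ¬ rbAt w j = 0)).card = n := by
    rw [Finset.card_filter_add_card_filter_not]
    simp
  have h2 : (univ.filter (fun j => ¬ rbAt w j = 0)).card ≤ rb w := by
    unfold rb
    calc (univ.filter (fun j => ¬ rbAt w j = 0)).card
        = ∑ j ∈ univ.filter (fun j => ¬ rbAt w j = 0), 1 := by simp
      _ ≤ ∑ j ∈ univ.filter (fun j => ¬ rbAt w j = 0), rbAt w j := by
          apply Finset.sum_le_sum
          intro j hj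
          have := (Finset.mem_filter.mp hj).2
          omega
      _ ≤ ∑ j, rbAt w j :=
          Finset.sum_le_sum_of_subset (Finset.filter_subset _ _)
  omega

/-- For words of length at least `rb (w) + 3` the last two letters agree. -/
lemma last_two {m : ℕ} {w : Fin (m + 2) → ℕ} (hw : w ∈ R1221 (m + 2)) (hk : rb w + 3 ≤ m + 2) :
    w (Fin.last (m + 1)) = w (Fin.last m).castSucc := by
  obtain ⟨h, ha⟩ := hw
  set Z := univ.filter (fun j => rbAt w j = 0) with hZ
  have hcard : 3 ≤ Z.card := by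
    have := card_zero w
    have h' : m + 2 ≤ rb w + Z.card := by
      convert this
    omega
  have h2 : 1 < (Z.erase (Fin.last (m + 1))).card := by
    have := Finset.pred_card_le_card_erase (s := Z) (a := Fin.last (m + 1))
    omega
  obtain ⟨x, hx, y, hy, hxy⟩ := Finset.one_lt_card.mp h2
  have : ∃ z₁ z₂ : Fin (m + 2), z₁ < z₂ ∧ z₂ < Fin.last (m + 1) ∧ rbAt w z₁ = 0 ∧
      rbAt w z₂ = 0 := by
    simp only [hZ, Finset.mem_erase, Finset.mem_filter, Finset.mem_univ, true_and] at hx hy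
    rcases lt_or_gt_of_ne hxy with h' | h'
    · exact ⟨x, y, h', lt_of_le_of_ne (Fin.le_last _) hy.1, hx.2, hy.2⟩
    · exact ⟨y, x, h', lt_of_le_of_ne (Fin.le_last _) hx.1, hy.2, hx.2⟩
  obtain ⟨z₁, z₂, h12, h2l, hz1, hz2⟩ := this
  have h2p : z₂ ≤ (Fin.last m).castSucc := by
    rw [Fin.lt_def] at h2l
    rw [Fin.le_def]
    simp at h2l ⊢
    omega
  have hpl : (Fin.last m).castSucc < Fin.last (m + 1) := Fin.castSucc_lt_last _
  rcases Nat.lt_trichotomy (w (Fin.last (m + 1))) (w (Fin.last m).castSucc) with h3 | h3 | h3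
  · exfalso
    exact key h ha (lt_of_lt_of_le h12 h2p) hpl h3
      (rbAt_eq_zero hz1 (lt_of_lt_of_le h12 h2p))
  · exact h3
  · exfalso
    have h4 := rbAt_eq_zero hz2 h2l
    have h5 := rbAt_eq_zero hz1 h12
    have hne : z₂ ≠ (Fin.last m).castSucc := by
      rintro rfl
      omega
    exact key h ha h12 (lt_of_le_of_ne h2p hne) (by omega) h5

lemma init_mem {m : ℕ} {w : Fin (m + 2) → ℕ} (hw : w ∈ R1221 (m + 2)) :
    Fin.init w ∈ R1221 (m + 1) := by
  obtain ⟨⟨h1, h2, h3⟩, ha⟩ := hw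
  refine ⟨⟨fun i => h1 _, fun i hi => h2 _ (by simpa using hi), ?_⟩, ?_⟩
  · intro i hi
    obtain ⟨j, hj, hle⟩ := h3 i.castSucc (by simpa using hi)
    refine ⟨j.castPred (ne_of_lt (lt_of_lt_of_le hj (Fin.le_last _))), ?_, ?_⟩
    · rw [Fin.lt_def] at hj ⊢
      simpa using hj
    · simpa [Fin.init] using hle
  · rintro ⟨a, b, c, d, hab, hbc, hcd, had, hdb, hbc'⟩
    exact ha ⟨a.castSucc, b.castSucc, c.castSucc, d.castSucc, by simpa using hab,
      by simpa using hbc, by simpa using hcd, had, hdb, hbc'⟩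

lemma coeff_RB (n k : ℕ) :
    (RB n).coeff k = ((R1221_finite n).toFinset.filter (fun w => rb w = k)).card := by
  unfold RB
  rw [Polynomial.finsetSum_coeff, Finset.card_filter]
  apply Finset.sum_congr rfl
  intro w _
  rw [Polynomial.coeff_X_pow]
  simp only [eq_comm]

lemma coeff_succ (k m : ℕ) (h : k + 2 ≤ m + 1) :
    (RB (m + 2)).coeff k = (RB (m + 1)).coeff k := by
  rw [coeff_RB, coeff_RB]
  symm
  apply Finset.card_bij (fun w _ => ext w)
  · intro w hw
    simp only [Finset.mem_filter, Set.Finite.mem_toFinset] at hw ⊢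
    exact ⟨ext_mem hw.1, by rw [rb_ext]; exact hw.2⟩
  · intro w _ w' _ hww
    exact ext_injective hww
  · intro w hw
    simp only [Finset.mem_filter, Set.Finite.mem_toFinset] at hw
    have hl := last_two hw.1 (by omega)
    have he : ext (Fin.init w) = w := by
      funext i
      induction i using Fin.lastCases with
      | last => rw [ext_last, hl]; rfl
      | cast i => rw [ext_castSucc]; rfl
    refine ⟨Fin.init w, ?_, he⟩
    simp only [Finset.mem_filter, Set.Finite.mem_toFinset]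
    exact ⟨init_mem hw.1, by rw [← rb_ext, he]; exact hw.2⟩

/-- For every `k`, the coefficient of `q^k` in `RB_n(1221)` is the same for all `n ≥ k + 2`. -/
theorem result : ∀ k n : ℕ, k + 2 ≤ n → (RB n).coeff k = (RB (k + 2)).coeff k := by
  intro k n hn
  induction n, hn using Nat.le_induction with
  | base => rfl
  | succ n hn ih =>
    obtain ⟨m, rfl⟩ : ∃ m, n = m + 1 := ⟨n - 1, by omega⟩
    rw [coeff_succ k m hn, ih]

end Pool.Agent.Results.MP_3ac9ea_co.Stabilization
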